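import Mathlib
import Pool.Agent.MP_06c78e_co.Defs
import Pool.Agent.MP_06c78e_co.Mg.Main

namespace Pool.Agent.Results.MP_06c78e_co.LowDegreeSeparators

open Pool.Agent.MP_06c78e_co

/-- A biconnected graph in which no vertex of degree at least four lies in a separation pair or
is a branch set of a `K₃,₃` minor on its own has a greedy drawing, even with all vertices on a
line. -/
theorem result {V : Type} [Fintype V] (G : SimpleGraph V) [DecidableRel G.Adj]
    (hG : Biconnected G)
    (hsep : ∀ x y : V, IsSepPair G x y → G.degree x ≤ 3)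
    (hminor : ∀ (x : V) (A B : Fin 3 → Set V), IsK33Minor G A B → A 0 = {x} → G.degree x ≤ 3) :
    ∃ p : V → Plane, IsGreedyDrawing G p ∧ ∀ v, p v 1 = 0 := by
  obtain ⟨s, t, h⟩ := (good_of (fun x _ y _ => hsep x y) (fun x _ => hminor x)).lin_univ hG
  exact h.drawing

end Pool.Agent.Results.MP_06c78e_co.LowDegreeSeparators
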