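import Pool.Agent.MP_06c78e_co.Mg.H40_No
import Pool.Agent.MP_06c78e_co.Mg.H40_LayT
import Pool.Agent.MP_06c78e_co.Mg.H40_GridYes
import Pool.Agent.MP_06c78e_co.Mg.H40_Code

open Pool.Agent.Lib.Cx Pool.Agent.MP_06c78e_co Pool.Agent.MP_06c78e_co.H40

/-- Deciding whether a biconnected planar graph has a greedy drawing is NP-hard: every language
in NP reduces to it by a polynomial-time map whose values are adjacency matrices of biconnected
planar graphs. -/
theorem Pool.Agent.Results.MP_06c78e_co.RecognitionNPHard.result :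
    ∀ L ∈ N68a2faeb.NP, ∃ f : List Bool → List (List Bool), N68a2faeb.IsPolyTime f ∧
      ∀ x, ∃ (n : ℕ) (G : SimpleGraph (Fin n)), f x = adjRows G ∧ Biconnected G ∧ IsPlanar G ∧
        (L x = true ↔ ∃ p : Fin n → Plane, IsGreedyDrawing G p) := by
  intro L hL
  obtain ⟨NG, LC, hno⟩ := hp_of_greedy
  obtain ⟨f, hf, h⟩ := reduction NG LC
  obtain ⟨g, hg, e⟩ := hardOn_sat3 L hL
  refine ⟨fun x => f (g x), pt_iff_isPolyTime.1 (hf.comp' hg), fun x => ?_⟩
  obtain ⟨n, G, h1, ⟨i⟩⟩ := h (g x)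
  obtain ⟨V1⟩ := Gd.skeleton (gc_ok (g x)) (gc_odd (g x))
  obtain ⟨V2⟩ := blow _ V1
  obtain ⟨V3⟩ := stack NG LC _ V2
  refine ⟨n, G, h1.symm, biconnected_iso i (biconnected_of_st NG LC
    (Gd.st_of_att _ (gc_att _))), planar_iso i (planar_of_vis (tg0_ne _) V3), ?_⟩
  rw [(e x).2, greedy_iff, greedy_iso i, ← slot_iff _ (e x).1, ← gc_sat_iff_slot]
  exact ⟨fun h => greedy_of_hp NG LC (Gd.hp_of_sat _ h),
    fun ⟨p, hp⟩ => Gd.sat_of_hp _ (hno _ p hp)⟩
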