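import Mathlib
import Pool.Agent.MP_06c78e_co.Defs
import Pool.Agent.MP_06c78e_co.Defs2
import Pool.Agent.MP_06c78e_co.Mg.Hubs

namespace Pool.Agent.Results.MP_06c78e_co.TwoHubs

open Pool.Agent.MP_06c78e_co

/-- Let `{a, b}` be a separation pair such that every component of `G - {a, b}` is a chain from a
neighbour of `a` to a neighbour of `b`, and no vertex of degree at least four other than `a`, `b`
lies in a separation pair avoiding `a`, `b` or is a branch set of a `K₃,₃` minor on its own.
Then `G` has a greedy drawing if and only if `G - {a, b}` has at most ten components. -/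
theorem result {V : Type} [Fintype V] (G : SimpleGraph V) [DecidableRel G.Adj] (a b : V)
    (hab : IsSepPair G a b)
    (hchain : ∀ c : Comp G a b, ∃ x y : V, G.Adj a x ∧ G.Adj b y ∧ IsChain G (Piece G a b c) x y)
    (hsep : ∀ x ∈ ({a, b} : Set V)ᶜ, ∀ y ∈ ({a, b} : Set V)ᶜ, IsSepPair G x y → G.degree x ≤ 3)
    (hminor : ∀ x ∈ ({a, b} : Set V)ᶜ, ∀ A B : Fin 3 → Set V,
      IsK33Minor G A B → A 0 = {x} → G.degree x ≤ 3) :
    (∃ p : V → Plane, IsGreedyDrawing G p) ↔ Nat.card (Comp G a b) ≤ 10 :=
  ⟨fun ⟨_, hp⟩ => card_comp_le hp a b,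
    fun h => greedy_of_lin hab h (lin_piece hab (good_of hsep hminor) hchain)⟩

end Pool.Agent.Results.MP_06c78e_co.TwoHubs
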